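import Pool.Agent.Helper78.LK.Goals

/-!
# Project LK (MP_5a63b6_lc), packet LK-INI (helper33)
-/

set_option autoImplicit false

namespace Pool.Agent.Helper33.LK

open Pool.Agent.Helper50.KP Pool.Agent.Helper78.LK

theorem tmv (k x i : ℕ) (s : Bool) (hs : decide (x ≤ 6 * k) = s) (hx : x % 2 = (i + 1) % 2) :
    (i % 2 = 0 → tm k x s = tX k x ∧ tm k x (!s) = tY k x) ∧
    (i % 2 ≠ 0 → tm k x s = tY k x ∧ tm k x (!s) = tX k x) := by
  constructor
  · intro hi
    have h1 : decide (x % 2 = 1) = true := by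
      rw [decide_eq_true_iff]
      omega
    unfold tm
    rw [hs, h1]
    cases s <;> simp
  · intro hi
    have h1 : decide (x % 2 = 1) = false := by
      rw [decide_eq_false_iff_not]
      omega
    unfold tm
    rw [hs, h1]
    cases s <;> simp

theorem twc (hCRO : CRO) {k : ℕ} {T : Finset ℕ} {cl : ℕ → ℕ} (hG : Good k T cl)
    (s dX dY : Bool) (c n : ℕ) (X Y : ℕ → Lb) (hc : c % 2 = 0)
    (hx : ∀ i < n, decide (c + 1 + i ≤ 6 * k) = s ∧ c + 1 + i ≤ 12 * k + 1 ∧
      sn k (c + 1 + i) = sg s * sg dX * sg dY)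
    (hX : ∀ i < n, X i = (cl (tX k (c + 1 + i) + if dX then 0 else 1), dX) ∧
      X (i + 1) = (cl (tX k (c + 1 + i) + if dX then 1 else 0), dX))
    (hY : ∀ i < n, Y i = (cl (tY k (c + 1 + i) + if dY then 0 else 1), dY) ∧
      Y (i + 1) = (cl (tY k (c + 1 + i) + if dY then 1 else 0), dY)) :
    ∀ i < n, Pc (datOf k T cl) (.X s) (c + 1 + i) (pr X Y i) (pr X Y (i + 1))
      (if c + 1 + i ∈ T then 1 else 0) := by
  intro i hi
  obtain ⟨h1, h2, h3⟩ := hx i hi
  obtain ⟨h4, h5⟩ := hX i hi
  obtain ⟨h6, h7⟩ := hY i hi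
  have ht := tmv k (c + 1 + i) i s h1 (by omega)
  by_cases hp : i % 2 = 0
  · obtain ⟨t1, t2⟩ := ht.1 hp
    have := hCRO k T cl hG (c + 1 + i) s dX dY (by omega) h2 h3
    rw [t1, t2] at this
    unfold pr
    rw [if_pos hp, if_neg (by omega), h4, h5, h6, h7]
    exact this
  · obtain ⟨t1, t2⟩ := ht.2 hp
    have := hCRO k T cl hG (c + 1 + i) s dY dX (by omega) h2 (by rw [h3]; ring)
    rw [t1, t2] at this
    unfold pr
    rw [if_neg hp, if_pos (by omega), h4, h5, h6, h7]
    exact this

theorem nfree_append (D : Dat) (W W' : DW) :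
    nfree D (W ++ W') = nfree D W + nfree D W' := by
  unfold nfree
  exact List.countP_append

theorem nfree_tw (D : Dat) (T : Finset ℕ) (hD : ∀ x, D.fr x = decide (x = 0 ∨ x ∈ T))
    (s : Bool) (p c n : ℕ) :
    ((nfree D (tw s p c n) : ℕ) : ℤ) =
      ∑ i ∈ Finset.range n, (if c + 1 + i ∈ T then (1 : ℤ) else 0) := by
  induction n with
  | zero => simp [tw, nfree]
  | succ n ih =>
    have h1 : tw s p c (n + 1) = tw s p c n ++ [(.X s, p, c + 1 + n)] := by
      unfold tw
      rw [List.range_succ, List.map_append]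
      rfl
    rw [h1, nfree_append, Finset.sum_range_succ, ← ih, Nat.cast_add]
    congr 1
    have h2 : D.fr (c + 1 + n) = decide (c + 1 + n ∈ T) := by
      rw [hD]
      simp
    by_cases h3 : c + 1 + n ∈ T
    · simp [nfree, isX, h2, h3]
    · simp [nfree, isX, h2, h3]

theorem gINI (hAPP : APP) (hGOD : GOD) (hCRO : CRO) (hTWR : TWR) : INI := by
  intro k T hT
  obtain ⟨cl, hG⟩ := hGOD.1 k T hT
  obtain ⟨g1, g2, -⟩ := hGOD.2 k T cl hG
  have hfr : ∀ x, (datOf k T cl).fr x = decide (x = 0 ∨ x ∈ T) := by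
    intro x
    unfold datOf
    simp only
  refine ⟨datOf k T cl, hfr, g1, g2, ?_⟩
  set D := datOf k T cl with hD
  have join : ∀ (W W' : DW) (A B C : List Lb) (q1 q2 : ℤ), Run D W A B q1 → Run D W' B C q2 →
      Run D (W ++ W') A C (q1 + q2) := fun W W' A B C q1 q2 h1 h2 =>
    (hAPP.1 D _ _ _ _ _).mpr ⟨B, q1, q2, h1, h2, rfl⟩
  have e0 : cl 0 = cl (24 * k + 2) := hG.1
  -- cups at the left end
  have r0 : Run D [(.cup, 0, 0), (.cup, 2, 0)] []
      [(cl 0, true), (cl (24 * k + 2), false), (cl (12 * k + 1), false),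
        (cl (12 * k + 1), true)] 0 := by
    rw [← e0]
    have h2 : Run D [(.cup, 2, 0)] [(cl 0, true), (cl 0, false)]
        [(cl 0, true), (cl 0, false), (cl (12 * k + 1), false),
        (cl (12 * k + 1), true)] (0 + 0) :=
      Run.cons (A := [(cl 0, true), (cl 0, false)]) (B := []) rfl
        (Pc.cup 0 (cl (12 * k + 1)) false) (Run.nil _)
    have h1 : Run D [(.cup, 0, 0), (.cup, 2, 0)] [] [(cl 0, true), (cl 0, false),
        (cl (12 * k + 1), false), (cl (12 * k + 1), true)] (0 + (0 + 0)) :=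
      Run.cons (A := []) (B := []) rfl (Pc.cup 0 (cl 0) true) h2
    simpa using h1
  -- the twists
  have rA := hTWR D true 1 0 (4 * k) (fun i => (cl (24 * k + 2 - i), false))
    (fun i => (cl (12 * k + 1 - i), false)) _
    (twc hCRO hG true false false 0 (4 * k) _ _ rfl
      (fun i hi => ⟨by rw [decide_eq_true_iff]; omega, by omega, by
        unfold sn; rw [if_pos (by omega)]; rfl⟩)
      (fun i hi => ⟨Prod.ext (congrArg cl (by unfold tX; rw [if_pos (by omega)]; simp; omega)) rfl,
        Prod.ext (congrArg cl (by unfold tX; rw [if_pos (by omega)]; simp; omega)) rfl⟩)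
      (fun i hi => ⟨Prod.ext (congrArg cl (by unfold tY; rw [if_pos (by omega)]; simp; omega)) rfl,
        Prod.ext (congrArg cl (by unfold tY; rw [if_pos (by omega)]; simp; omega)) rfl⟩))
    [(cl 0, true)] [(cl (12 * k + 1), true)] rfl
  have rB := hTWR D true 0 (4 * k) (2 * k) (fun i => (cl i, true))
    (fun i => (cl (20 * k + 2 - i), false)) _
    (twc hCRO hG true true false (4 * k) (2 * k) _ _ (by omega)
      (fun i hi => ⟨by rw [decide_eq_true_iff]; omega, by omega, by
        unfold sn; rw [if_neg (by omega), if_pos (by omega)]; rfl⟩)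
      (fun i hi => ⟨Prod.ext (congrArg cl (by
          unfold tX; rw [if_neg (by omega), if_pos (by omega)]; simp)) rfl,
        Prod.ext (congrArg cl (by
          unfold tX; rw [if_neg (by omega), if_pos (by omega)]; simp)) rfl⟩)
      (fun i hi => ⟨Prod.ext (congrArg cl (by
          unfold tY; rw [if_neg (by omega), if_pos (by omega)]; simp; omega)) rfl,
        Prod.ext (congrArg cl (by
          unfold tY; rw [if_neg (by omega), if_pos (by omega)]; simp; omega)) rfl⟩))
    [] [(cl (8 * k + 1), false), (cl (12 * k + 1), true)] rfl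
  have rC := hTWR D false 2 (6 * k) (2 * k) (fun i => (cl (8 * k + 1 - i), false))
    (fun i => (cl (12 * k + 1 + i), true)) _
    (twc hCRO hG false false true (6 * k) (2 * k) _ _ (by omega)
      (fun i hi => ⟨by rw [decide_eq_false_iff_not]; omega, by omega, by
        unfold sn; rw [if_neg (by omega), if_neg (by omega), if_pos (by omega)]; rfl⟩)
      (fun i hi => ⟨Prod.ext (congrArg cl (by
          unfold tX; rw [if_neg (by omega), if_neg (by omega), if_pos (by omega)]
          simp; omega)) rfl,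
        Prod.ext (congrArg cl (by
          unfold tX; rw [if_neg (by omega), if_neg (by omega), if_pos (by omega)]
          simp; omega)) rfl⟩)
      (fun i hi => ⟨Prod.ext (congrArg cl (by
          unfold tY; rw [if_neg (by omega), if_neg (by omega), if_pos (by omega)]
          simp; omega)) rfl,
        Prod.ext (congrArg cl (by
          unfold tY; rw [if_neg (by omega), if_neg (by omega), if_pos (by omega)]
          simp; omega)) rfl⟩))
    [(cl (2 * k), true), (cl (18 * k + 2), false)] [] rfl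
  have rD := hTWR D false 1 (8 * k) (4 * k + 1) (fun i => (cl (18 * k + 2 - i), false))
    (fun i => (cl (6 * k + 1 - i), false)) _
    (twc hCRO hG false false false (8 * k) (4 * k + 1) _ _ (by omega)
      (fun i hi => ⟨by rw [decide_eq_false_iff_not]; omega, by omega, by
        unfold sn; rw [if_neg (by omega), if_neg (by omega), if_neg (by omega)]; rfl⟩)
      (fun i hi => ⟨Prod.ext (congrArg cl (by
          unfold tX; rw [if_neg (by omega), if_neg (by omega), if_neg (by omega)]
          simp; omega)) rfl,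
        Prod.ext (congrArg cl (by
          unfold tX; rw [if_neg (by omega), if_neg (by omega), if_neg (by omega)]
          simp; omega)) rfl⟩)
      (fun i hi => ⟨Prod.ext (congrArg cl (by
          unfold tY; rw [if_neg (by omega), if_neg (by omega), if_neg (by omega)]
          simp; omega)) rfl,
        Prod.ext (congrArg cl (by
          unfold tY; rw [if_neg (by omega), if_neg (by omega), if_neg (by omega)]
          simp; omega)) rfl⟩))
    [(cl (2 * k), true)] [(cl (14 * k + 1), true)] rfl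
  -- the caps
  have r5 : Run D [(.cap, 0, 0), (.cap, 0, 0)]
      [(cl (2 * k), true), (cl (2 * k), false), (cl (14 * k + 1), false),
        (cl (14 * k + 1), true)] [] 0 := by
    have h2 : Run D [(.cap, 0, 0)] [(cl (14 * k + 1), false), (cl (14 * k + 1), true)] []
        (0 + 0) :=
      Run.cons (A := []) (B := []) rfl (Pc.cap 0 (cl (14 * k + 1)) false) (Run.nil _)
    have h1 : Run D [(.cap, 0, 0), (.cap, 0, 0)]
      [(cl (2 * k), true), (cl (2 * k), false), (cl (14 * k + 1), false),
        (cl (14 * k + 1), true)] [] (0 + (0 + 0)) :=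
      Run.cons (A := []) (B := [(cl (14 * k + 1), false), (cl (14 * k + 1), true)]) rfl
        (Pc.cap 0 (cl (2 * k)) true) h2
    simpa using h1
  -- the joints
  have pe : ∀ (X Y : ℕ → Lb) (i : ℕ), i % 2 = 0 → pr X Y i = [X i, Y i] := fun X Y i hi => by
    unfold pr; rw [if_pos hi]
  have po : ∀ (X Y : ℕ → Lb) (i : ℕ), i % 2 = 1 → pr X Y i = [Y i, X i] := fun X Y i hi => by
    unfold pr; rw [if_neg (by omega)]
  rw [pe _ _ 0 rfl, pe _ _ (4 * k) (by omega)] at rA
  rw [pe _ _ 0 rfl, pe _ _ (2 * k) (by omega)] at rB rC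
  rw [pe _ _ 0 rfl, po _ _ (4 * k + 1) (by omega)] at rD
  simp only [List.cons_append, List.nil_append, Nat.sub_zero, Nat.add_zero] at rA rB rC rD
  rw [show 24 * k + 2 - 4 * k = 20 * k + 2 by omega,
    show 12 * k + 1 - 4 * k = 8 * k + 1 by omega] at rA
  rw [show 20 * k + 2 - 2 * k = 18 * k + 2 by omega] at rB
  rw [show 8 * k + 1 - 2 * k = 6 * k + 1 by omega,
    show 12 * k + 1 + 2 * k = 14 * k + 1 by omega] at rC
  rw [show 18 * k + 2 - (4 * k + 1) = 14 * k + 1 by omega,
    show 6 * k + 1 - (4 * k + 1) = 2 * k by omega] at rD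
  have h := join _ _ _ _ _ _ _ (join _ _ _ _ _ _ _ (join _ _ _ _ _ _ _ (join _ _ _ _ _ _ _
    (join _ _ _ _ _ _ _ r0 rA) rB) rC) rD) r5
  have hsum : ((nfree D (W0 k) : ℕ) : ℤ) = 0 + (∑ i ∈ Finset.range (4 * k),
      (if 0 + 1 + i ∈ T then (1 : ℤ) else 0)) + (∑ i ∈ Finset.range (2 * k),
      (if 4 * k + 1 + i ∈ T then (1 : ℤ) else 0)) + (∑ i ∈ Finset.range (2 * k),
      (if 6 * k + 1 + i ∈ T then (1 : ℤ) else 0)) + (∑ i ∈ Finset.range (4 * k + 1),
      (if 8 * k + 1 + i ∈ T then (1 : ℤ) else 0)) + 0 := by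
    unfold W0
    simp only [nfree_append, Nat.cast_add, nfree_tw D T hfr]
    simp [nfree, isX]
  rw [hsum]
  exact h

end Pool.Agent.Helper33.LK
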